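import Pool.Agent.Lib.P1ae5.Scalar
import Pool.Agent.Lib.P1ae5.Bridge

/-!
For `n ≥ 2` no map `p(z) D z + (A - D) z` with a scalar Carathéodory function `p` is an extreme
point of `N_A`.
-/

open Metric Pool.Agent.P1ae5

namespace Pool.Agent.Results.MP_1ae5d5_an.NoScalarExtreme

/-- Let `n ≥ 2`, `A` a linear operator on `C^n` with `Re <Az,z> > 0` for `z ≠ 0`, `D` its Hermitian
part and `p` holomorphic on the ball with `p(0) = 1`, `Re p > 0`. Then
`h(z) = p(z) D z + (A - D) z` belongs to `N_A` and is not an extreme point of `N_A`. -/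
theorem result (n : ℕ) (hn : 2 ≤ n) (A : EuclideanSpace ℂ (Fin n) →L[ℂ] EuclideanSpace ℂ (Fin n))
    (hA : St.IsPos A) (p : EuclideanSpace ℂ (Fin n) → ℂ)
    (hp : DifferentiableOn ℂ p (ball 0 1)) (hp0 : p 0 = 1)
    (hpre : ∀ z, ‖z‖ < 1 → 0 < (p z).re) :
    St.scalarMap A p ∈ St.FamN A ∧ ¬ St.IsExtr A (St.scalarMap A p) :=
  scalar_not_extreme hn hA hp hp0 (fun z hz => hpre z (by simpa using hz))

end Pool.Agent.Results.MP_1ae5d5_an.NoScalarExtreme
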